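import Pool.Agent.MP_c69980_ag.H4.SpecA

/-!
Minors, scaling, derivatives of quotients of forms, and reduced lifts.
-/

set_option autoImplicit false

namespace Pool.Agent.MP_c69980_ag.H4.R1

open MvPolynomial Metric Filter Topology MeasureTheory Set Real
open scoped ContDiff ENNReal ComplexConjugate
open H60 (PR)

variable {n : ℕ}

theorem sq_nn (y : Fin n → ℂ) : 0 ≤ sq y := Finset.sum_nonneg fun _ _ => by positivity

theorem sq_ip (y : Fin n → ℂ) : (sq y : ℂ) = ip y y := by
  simp [H4.sq, ip, Complex.mul_conj']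

theorem norm_sq_le (y : Fin n → ℂ) : ‖y‖ ^ 2 ≤ sq y := by
  rw [← le_sqrt (norm_nonneg _) (sq_nn y), pi_norm_le_iff_of_nonneg (sqrt_nonneg _)]
  exact fun i => le_sqrt_of_sq_le (Finset.single_le_sum (f := fun i => ‖y i‖ ^ 2)
    (fun _ _ => by positivity) (Finset.mem_univ i))

theorem sq_pos' {y : Fin n → ℂ} (h : y ≠ 0) : 0 < sq y :=
  (pow_pos (norm_pos_iff.2 h) 2).trans_le (norm_sq_le y)

theorem sq_smul (a : ℂ) (y : Fin n → ℂ) : sq (a • y) = ‖a‖ ^ 2 * sq y := by
  simp [H4.sq, Finset.mul_sum, mul_pow]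

theorem ip_smul (a : ℂ) (y w : Fin n → ℂ) : ip (a • y) w = a * ip y w := by
  simp [ip, Finset.mul_sum, mul_assoc]

theorem ip_conj (y w : Fin n → ℂ) : conj (ip y w) = ip w y := by
  simp [ip, mul_comm]

theorem lagrange (y w : Fin n → ℂ) :
    ∑ i, ∑ j, ‖w i * y j - y i * w j‖ ^ 2 = 2 * (sq y * sq w - ‖ip w y‖ ^ 2) := by
  apply Complex.ofReal_injective
  push_cast
  simp only [← Complex.mul_conj', sq_ip, ip_conj]
  simp only [ip, Finset.sum_mul_sum, map_sub, map_mul]
  have e : ∑ i, ∑ j, y i * conj (y i) * (w j * conj (w j)) =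
      ∑ i, ∑ j, y j * conj (y j) * (w i * conj (w i)) := Finset.sum_comm
  have e' : ∑ i, ∑ j, w i * conj (y i) * (y j * conj (w j)) =
      ∑ i, ∑ j, w j * conj (y j) * (y i * conj (w i)) := Finset.sum_comm
  rw [two_mul]
  nth_rewrite 1 [e, e']
  simp only [← Finset.sum_sub_distrib, ← Finset.sum_add_distrib]
  exact Finset.sum_congr rfl fun i _ => Finset.sum_congr rfl fun j _ => by ring

theorem cs (y w : Fin n → ℂ) : ‖ip w y‖ ^ 2 ≤ sq y * sq w := by
  have : 0 ≤ ∑ i, ∑ j, ‖w i * y j - y i * w j‖ ^ 2 := by positivity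
  rw [lagrange] at this
  linarith

theorem lamv_nn (y w : Fin n → ℂ) : 0 ≤ lamv y w :=
  div_nonneg (sub_nonneg.2 (cs y w)) (by positivity)

theorem minor_le (y w : Fin n → ℂ) (i j : Fin n) :
    ‖w i * y j - y i * w j‖ ^ 2 ≤ sq y * sq w - ‖ip w y‖ ^ 2 := by
  rcases eq_or_ne i j with rfl | h
  · simpa [mul_comm] using cs y w
  have h1 := lagrange y w
  have h2 := Finset.add_le_sum (f := fun i => ∑ j, ‖w i * y j - y i * w j‖ ^ 2)
    (fun _ _ => by positivity) (Finset.mem_univ i) (Finset.mem_univ j) h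
  have h3 := Finset.single_le_sum (f := fun j => ‖w i * y j - y i * w j‖ ^ 2)
    (fun _ _ => by positivity) (Finset.mem_univ j)
  have h4 := Finset.single_le_sum (f := fun i => ‖w j * y i - y j * w i‖ ^ 2)
    (fun _ _ => by positivity) (Finset.mem_univ i)
  rw [show w j * y i - y j * w i = -(w i * y j - y i * w j) by ring, norm_neg] at h4
  linarith

theorem minor : MinorStmt := fun n y w hy => by
  have p := sq_pos' hy
  have e : lamv y w * sq y ^ 2 = sq y * sq w - ‖ip w y‖ ^ 2 := div_mul_cancel₀ _ (by positivity)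
  refine ⟨fun i j => e ▸ minor_le y w i j, ?_, ?_, fun a b ha => ?_, norm_sq_le y, ?_, ?_⟩
  · rw [e, lagrange]; linarith [cs y w]
  · rw [lamv, div_le_div_iff₀ (by positivity) p]
    nlinarith [mul_nonneg (sq_nonneg ‖ip w y‖) p.le]
  · have h1 := lagrange (a • y) (a • w + b • y)
    have h2 : ∀ i j, ‖(a • w + b • y) i * (a • y) j - (a • y) i * (a • w + b • y) j‖ ^ 2 =
        ‖a‖ ^ 4 * ‖w i * y j - y i * w j‖ ^ 2 := fun i j => by
      rw [show (a • w + b • y) i * (a • y) j - (a • y) i * (a • w + b • y) j =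
        a ^ 2 * (w i * y j - y i * w j) by simp; ring, norm_mul, norm_pow]
      ring
    simp only [h2, ← Finset.mul_sum, lagrange] at h1
    have := norm_pos_iff.2 ha
    rw [lamv, lamv, div_eq_div_iff (by rw [sq_smul]; positivity) (by positivity)]
    nth_rewrite 2 [sq_smul]
    linear_combination (-sq y ^ 2 / 2) * h1
  · simpa [H4.sq] using Finset.sum_le_card_nsmul Finset.univ (fun i => ‖y i‖ ^ 2) (‖y‖ ^ 2)
      fun i _ => pow_le_pow_left₀ (norm_nonneg _) (norm_le_pi_norm y i) 2
  · rw [mul_comm]; exact cs w y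

theorem lamv_smul (a : ℂ) (y w : Fin n → ℂ) : lamv y (a • w) = ‖a‖ ^ 2 * lamv y w := by
  rw [lamv, lamv, sq_smul, ip_smul, norm_mul]; ring

theorem scale : ScaleStmt := fun n F c r hr => by
  have h1 : ∀ z, lam (fun w => F (c + r * w)) z = r ^ 2 * lam F (c + r * z) := fun z => by
    rw [lam, deriv_comp_mul_left (f := fun w => F (c + w)), deriv_comp_const_add, lamv_smul,
      Complex.norm_real, Real.norm_eq_abs, sq_abs, lam]
  refine ⟨h1, fun S => ?_, fun a s => ?_⟩
  · let T : ℂ ≃ᵐ ℂ := (MeasurableEquiv.smul₀ r hr.ne').trans (MeasurableEquiv.addLeft c)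
    have hT : (fun w : ℂ => c + r * w) = T := by ext; simp [T]
    have hm : Measure.map T volume = ENNReal.ofReal (r ^ 2)⁻¹ • volume := by
      rw [show (T : ℂ → ℂ) = (c + ·) ∘ (r • ·) from rfl, ← Measure.map_map (by fun_prop)
        (by fun_prop), Measure.map_addHaar_smul _ hr.ne', Measure.map_smul, map_add_left_eq_self,
        Complex.finrank_real_complex, abs_of_pos (by positivity)]
    have h2 := T.measurableEmbedding.lintegral_map (μ := volume.restrict (T ⁻¹' S))
      fun z => ENNReal.ofReal (lam F z)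
    rw [← T.measurableEmbedding.restrict_map, hm, Measure.restrict_smul, lintegral_smul_measure]
      at h2
    simp only [mu, h1, ENNReal.ofReal_mul (sq_nonneg r)]
    rw [lintegral_const_mul' _ _ ENNReal.ofReal_ne_top, hT]
    simp only [congrFun hT]
    rw [← h2, smul_eq_mul, ← mul_assoc, ← ENNReal.ofReal_mul (sq_nonneg r),
      mul_inv_cancel₀ (by positivity), ENNReal.ofReal_one, one_mul]
  · ext w
    simp only [mem_preimage, mem_ball, dist_eq_norm, add_sub_add_left_eq_sub, ← mul_sub, norm_mul,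
      Complex.norm_real, Real.norm_eq_abs, abs_of_pos hr]
    exact mul_lt_mul_iff_right₀ hr

theorem hom_bd {R : PR n} {e : ℕ} (h : R.IsHomogeneous e) :
    ∃ C, 0 < C ∧ ∀ y, ‖eval y R‖ ≤ C * ‖y‖ ^ e := by
  obtain ⟨C, hC⟩ := (isCompact_closedBall (0 : Fin n → ℂ) 1).exists_bound_of_continuousOn
    (f := fun y => eval y R) (MvPolynomial.continuous_eval R).continuousOn
  refine ⟨max C 1, by positivity, fun y => ?_⟩
  obtain ⟨x, hx, e1⟩ : ∃ x : Fin n → ℂ, ‖x‖ ≤ 1 ∧ y = (‖y‖ : ℂ) • x := by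
    rcases eq_or_ne y 0 with rfl | hy
    · exact ⟨0, by simp, by simp⟩
    have := norm_pos_iff.2 hy
    refine ⟨(‖y‖ : ℂ)⁻¹ • y, by simp [norm_smul, hy], ?_⟩
    rw [smul_inv_smul₀ (by simpa)]
  nth_rewrite 1 [e1]
  rw [H60.eval_smul_hom h, norm_mul, norm_pow, Complex.norm_real, norm_norm, mul_comm]
  gcongr
  exact (hC x (by simpa)).trans (le_max_left _ _)

theorem hom_X_pderiv {P : PR n} {d : ℕ} (h : P.IsHomogeneous d) (i j : Fin n) :
    (X j * pderiv i P).IsHomogeneous d := by
  obtain _ | d := d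
  · rw [← totalDegree_zero_iff_isHomogeneous, totalDegree_eq_zero_iff_eq_C] at h
    rw [h, pderiv_C, mul_zero]; apply isHomogeneous_zero
  · simpa [add_comm] using (isHomogeneous_X ℂ j).mul (h.pderiv (i := i))

theorem ratDer : RatDerStmt := fun n d P Q hP hQ => by
  choose C C0 hC using fun i j : Fin n =>
    hom_bd (((hom_X_pderiv hP i j).mul hQ).sub (hP.mul (hom_X_pderiv hQ i j)))
  refine ⟨(∑ i, ∑ j, C i j) ^ 2 + 1, by positivity, fun y w hy => ?_⟩
  have p := sq_pos' hy
  have eu : ∀ {R : PR n}, R.IsHomogeneous d → ∑ i, y i * eval y (pderiv i R) = d * eval y R :=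
    fun h => by simpa using congrArg (eval y) h.sum_X_mul_pderiv
  set E := (∑ i, eval y (pderiv i P) * w i) * eval y Q - eval y P * ∑ i, eval y (pderiv i Q) * w i
  let c : Fin n → ℂ := fun i => eval y (pderiv i P) * eval y Q - eval y P * eval y (pderiv i Q)
  have c1 : ∑ i, c i * w i = E := by
    simp only [E, c, Finset.sum_mul, Finset.mul_sum, ← Finset.sum_sub_distrib]
    exact Finset.sum_congr rfl fun i _ => by ring
  have c2 : ∑ i, c i * y i = 0 := by
    have : ∑ i, c i * y i = (∑ i, y i * eval y (pderiv i P)) * eval y Q -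
        eval y P * ∑ i, y i * eval y (pderiv i Q) := by
      simp only [c, Finset.sum_mul, Finset.mul_sum, ← Finset.sum_sub_distrib]
      exact Finset.sum_congr rfl fun i _ => by ring
    rw [this, eu hP, eu hQ]; ring
  have c3 : E * sq y = ∑ i, ∑ j, c i * conj (y j) * (w i * y j - y i * w j) := by
    have : E * sq y = (∑ i, c i * w i) * ip y y - (∑ i, c i * y i) * ip w y := by
      rw [c1, c2, sq_ip]; ring
    simp only [this, ip, Finset.sum_mul_sum, ← Finset.sum_sub_distrib]
    exact Finset.sum_congr rfl fun i _ => Finset.sum_congr rfl fun j _ => by ring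
  have c4 : ‖E‖ * sq y ≤ (∑ i, ∑ j, C i j) * (‖y‖ ^ (d + d) * (√(lamv y w) * sq y)) := by
    rw [← abs_of_pos p, ← Real.norm_eq_abs, ← Complex.norm_real, ← norm_mul, c3,
      Complex.norm_real, Real.norm_eq_abs, abs_of_pos p]
    simp only [Finset.sum_mul]
    refine norm_sum_le_of_le _ fun i _ => norm_sum_le_of_le _ fun j _ => ?_
    rw [norm_mul, ← mul_assoc]
    refine mul_le_mul ?_ ?_ (norm_nonneg _) (by have := C0 i j; positivity)
    · refine le_trans (le_of_eq ?_) (hC i j y)
      rw [norm_mul, Complex.norm_conj, ← norm_mul]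
      congr 1
      simp [c]; ring
    · refine abs_le_of_sq_le_sq' ?_ (by positivity) |>.2
      rw [mul_pow, sq_sqrt (lamv_nn y w)]
      exact (minor n y w hy).1 i j
  rw [← mul_assoc, ← mul_assoc, mul_le_mul_iff_left₀ p] at c4
  refine (pow_le_pow_left₀ (norm_nonneg _) c4 2).trans ?_
  rw [mul_pow, mul_pow, sq_sqrt (lamv_nn y w), ← pow_mul, show (d + d) * 2 = 4 * d by ring]
  have := mul_nonneg (lamv_nn y w) (pow_nonneg (norm_nonneg y) (4 * d))
  nlinarith

theorem lift : LiftStmt := fun n G hG ⟨a, a1, a2⟩ => by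
  let U := closedBall (0 : ℂ) (3 / 4)
  have hU : U ⊆ ball 0 1 := closedBall_subset_ball (by norm_num)
  have an := hG.analyticOnNhd isOpen_ball
  have ord : ∀ u : U, meromorphicOrderAt G u ≠ ⊤ := fun u => by
    rw [meromorphicOrderAt_ne_top_iff_eventually_ne_zero (an u (hU u.2)).meromorphicAt]
    refine (an u (hU u.2)).eventually_eq_zero_or_eventually_ne_zero.resolve_left fun h => a2 ?_
    exact an.eqOn_zero_of_preconnected_of_eventuallyEq_zero (convex_ball _ _).isPreconnected
      (hU u.2) h a1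
  obtain ⟨Ψ, G1, G2, G3⟩ := (an.mono hU).meromorphicOn.extract_zeros_poles ord
    ((MeromorphicOn.divisor G U).finiteSupport (isCompact_closedBall _ _))
  have hφ : ∀ z, AnalyticAt ℂ (∏ᶠ u, (· - u) ^ MeromorphicOn.divisor G U u) z := fun z =>
    Function.FactorizedRational.analyticAt (MeromorphicOn.AnalyticOnNhd.divisor_nonneg
      (an.mono hU) z)
  refine ⟨_, Ψ, fun z _ => (hφ z).differentiableAt.differentiableWithinAt,
    ⟨G1.differentiableOn.mono ball_subset_closedBall,
      fun z hz => G2 ⟨z, ball_subset_closedBall hz⟩⟩, fun z hz => ?_⟩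
  have hz' : z ∈ U := ball_subset_closedBall hz
  refine tendsto_nhds_unique_of_eventuallyEq (l := 𝓝[≠] z)
    ((an z (hU hz')).continuousAt.mono_left nhdsWithin_le_nhds)
    (((hφ z).continuousAt.smul (G1 z hz').continuousAt).mono_left nhdsWithin_le_nhds) ?_
  filter_upwards [mem_codiscreteWithin_iff_forall_mem_nhdsNE.1 G3 z hz', mem_nhdsWithin_of_mem_nhds
    (mem_of_superset (isOpen_ball.mem_nhds hz) ball_subset_closedBall)] with s h1 h4
  exact h1.resolve_right fun q => q h4

end Pool.Agent.MP_c69980_ag.H4.R1
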