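import Pool.Agent.MP_c69980_ag.H66.Calc
import Pool.Agent.MP_c69980_ag.H66.Alg

/-!
The Laplacian of the logarithm of a squared norm, the fundamental solution, and the
Green representation formula on discs.
-/

set_option autoImplicit false

namespace Pool.Agent.MP_c69980_ag.H4.R1

open Metric Filter Topology MeasureTheory Set Real
open scoped ContDiff ENNReal ComplexConjugate

variable {n : ℕ} {F G : ℂ → Fin n → ℂ} {F' G' : Fin n → ℂ} {z : ℂ}

theorem D_ip (hF : HasDerivAt F F' z) (hG : HasDerivAt G G' z) (v : ℂ) :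
    D v (fun w => (ip (F w) (G w)).re) z = (ip (v • F') (G z) + ip (F z) (v • G')).re := by
  have h := Complex.reCLM.hasFDerivAt.comp z (HasFDerivAt.fun_sum (u := Finset.univ) fun i _ =>
    (hasDerivAt_pi.1 hF i).complexToReal_fderiv.fun_mul
      (Complex.conjCLE.hasFDerivAt.comp z (hasDerivAt_pi.1 hG i).complexToReal_fderiv))
  rw [D]
  refine (congrArg (fun L : ℂ →L[ℝ] ℝ => L v) h.fderiv).trans ?_
  simp only [ip, ← Finset.sum_add_distrib]
  simp
  exact Finset.sum_congr rfl fun i _ => by ring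

theorem sq_re (y : Fin n → ℂ) : sq y = (ip y y).re := by rw [← sq_ip, Complex.ofReal_re]

theorem D_sq (hF : HasDerivAt F F' z) (v : ℂ) :
    D v (fun w => sq (F w)) z = 2 * (ip (v • F') (F z)).re := by
  simp only [sq_re]
  rw [D_ip hF hF, ← ip_conj (v • F'), Complex.add_re, Complex.conj_re, two_mul]

theorem sq_cd {O : Set ℂ} (hO : IsOpen O) (hF : DifferentiableOn ℂ F O) :
    ContDiffOn ℝ ∞ (fun z => sq (F z)) O :=
  ContDiffOn.sum fun i _ => (contDiffOn_pi.1
    (((hF.analyticOnNhd hO).contDiffOn_of_completeSpace (n := ∞)).restrict_scalars ℝ) i).norm_sq ℂ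

theorem lap_sq (hF : AnalyticAt ℂ F z) : lap (fun w => sq (F w)) z = 4 * sq (deriv F z) := by
  have h1 : ∀ v, D v (D v fun w => sq (F w)) z =
      2 * ((v * v * ip (deriv (deriv F) z) (F z)).re + ‖v‖ ^ 2 * sq (deriv F z)) := fun v => by
    have h2 := hF.deriv.differentiableAt.hasDerivAt.fun_const_smul v
    have h3 := hF.differentiableAt.hasDerivAt
    have : D v (fun w => sq (F w)) =ᶠ[𝓝 z] fun w => (ip ((2 : ℂ) • v • deriv F w) (F w)).re := by
      filter_upwards [hF.eventually_analyticAt] with w a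
      simp [D_sq a.differentiableAt.hasDerivAt, ip_smul 2]
    rw [(D_congr this v).self_of_nhds, D_ip (h2.fun_const_smul 2) h3, smul_comm v, ip_smul,
      ip_smul, ip_smul, ip_smul 2, ← sq_ip, sq_smul]
    simp only [Complex.add_re, Complex.re_ofNat, Complex.mul_re, Complex.im_ofNat,
      Complex.ofReal_re, Complex.mul_im]
    ring
  simp only [lap, h1]
  simp
  ring

theorem lapQ : LapQStmt := fun n O F hO hF => by
  have an := hF.1.analyticOnNhd hO
  have cd := sq_cd hO hF.1
  have p : ∀ z ∈ O, 0 < sq (F z) := fun z hz => sq_pos' (hF.2 z hz)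
  refine ⟨cd.log fun z hz => (p z hz).ne', ⟨?_, fun z _ => lamv_nn _ _⟩, fun z hz => ?_⟩
  · have c1 := an.continuousOn
    have c2 := an.deriv.continuousOn
    refine ContinuousOn.div ?_ (cd.continuousOn.pow 2) fun z hz => pow_ne_zero 2 (p z hz).ne'
    simp only [H4.sq, ip]
    fun_prop
  · have c2 : ContDiffAt ℝ 2 (fun z => sq (F z)) z :=
      (cd.contDiffAt (hO.mem_nhds hz)).of_le (by norm_cast)
    have := p z hz
    rw [(lapRule _ _ log z c2 c2 (contDiffAt_log.2 this.ne')).2.2.1, lap_sq (an z hz), grad_sq,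
      D_sq (an z hz).differentiableAt.hasDerivAt, D_sq (an z hz).differentiableAt.hasDerivAt,
      Real.deriv_log', deriv_inv, lam, lamv, ip_smul, ip_smul, Complex.sq_norm,
      Complex.normSq_apply]
    simp only [one_mul, Complex.mul_re, Complex.I_re, Complex.I_im]
    field_simp
    ring

theorem locInt_log : LocallyIntegrable (fun x : ℂ => log ‖x‖) := by
  have h1 : LocallyIntegrable (fun x : ℂ => ‖x‖⁻¹) := by
    refine locallyIntegrable_of_norm_le_rpow (C := 1) (α := 1) (by simp) (by simp)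
      (Eventually.of_forall fun x => ?_) (measurable_norm.inv).aestronglyMeasurable
    simp [Real.rpow_neg_one]
  refine (h1.add continuous_norm.locallyIntegrable).mono
    (measurable_norm.log).aestronglyMeasurable (Eventually.of_forall fun x => ?_)
  have h3 := Real.neg_inv_le_log (norm_nonneg x)
  have h4 := Real.log_le_self (norm_nonneg x)
  have h5 : 0 ≤ ‖x‖⁻¹ := by positivity
  have h6 := norm_nonneg x
  simp only [Pi.add_apply, Real.norm_eq_abs]
  rw [abs_of_nonneg (add_nonneg h5 h6), abs_le]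
  constructor <;> linarith

theorem integrable_bubble : Integrable (fun x : ℂ => 4 / (1 + ‖x‖ ^ 2) ^ 2) := by
  have h := (integrable_rpow_neg_one_add_norm_sq (E := ℂ) (μ := volume) (r := 4)
    (by norm_num)).const_mul 4
  refine h.congr (Eventually.of_forall fun x => ?_)
  have hp : 0 < 1 + ‖x‖ ^ 2 := by positivity
  show 4 * (1 + ‖x‖ ^ 2) ^ (-(4 : ℝ) / 2) = 4 / (1 + ‖x‖ ^ 2) ^ 2
  rw [show (-(4 : ℝ) / 2) = -((2 : ℕ) : ℝ) by norm_num, Real.rpow_neg hp.le, Real.rpow_natCast,
    div_eq_mul_inv]

theorem integral_bubble : ∫ x : ℂ, 4 / (1 + ‖x‖ ^ 2) ^ 2 = 4 * π := by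
  have h := integral_fun_norm_addHaar (volume : Measure ℂ) (fun y : ℝ => 4 / (1 + y ^ 2) ^ 2)
  have h2 : ∫ y in Ioi (0 : ℝ), y * (4 / (1 + y ^ 2) ^ 2) = 2 := by
    have hd : ∀ y ∈ Ici (0 : ℝ), HasDerivAt (fun y : ℝ => -2 * (1 + y ^ 2)⁻¹)
        (y * (4 / (1 + y ^ 2) ^ 2)) y := by
      intro y _
      have hp : 1 + y ^ 2 ≠ 0 := by positivity
      have := ((((hasDerivAt_id y).fun_pow 2).const_add 1).fun_inv hp).const_mul (-2)
      refine this.congr_deriv ?_
      simp only [id]
      field_simp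
      ring
    have hl : Tendsto (fun y : ℝ => -2 * (1 + y ^ 2)⁻¹) atTop (𝓝 (-2 * 0)) :=
      (tendsto_inv_atTop_zero.comp
        (tendsto_atTop_add_const_left _ _ (tendsto_pow_atTop (by norm_num)))).const_mul _
    rw [integral_Ioi_of_hasDerivAt_of_nonneg' hd (fun y hy => by
      have : 0 < y := hy
      positivity) hl]
    norm_num
  rw [h, Complex.finrank_real_complex]
  simp only [Nat.add_one_sub_one, pow_one, smul_eq_mul, h2, Measure.real, Complex.volume_ball]
  simp
  ring

theorem locInt_sub {f : ℂ → ℝ} (h : LocallyIntegrable f) (c : ℂ) :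
    LocallyIntegrable fun z => f (z - c) := by
  refine locallyIntegrable_iff.2 fun K hK => ?_
  have := ((measurePreserving_sub_right volume c).integrableOn_image
    (MeasurableEquiv.subRight c).measurableEmbedding (f := f) (s := K)).1
    (h.integrableOn_isCompact (hK.image (by fun_prop)))
  exact this

theorem fund : FundStmt := fun ψ c hψ => by
  have cφ := hψ.1.continuous
  have cΔ := (test_lap hψ).1.continuous
  have sΔ := (test_lap hψ).2.1
  refine ⟨(locInt_sub locInt_log c).integrable_smul_right_of_hasCompactSupport cΔ sΔ, ?_⟩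
  obtain ⟨C, hC⟩ := hψ.2.1.exists_bound_of_continuous cφ
  have key : ∀ t : ℝ, 0 < t → ∫ x, log (t ^ 2 + ‖x - c‖ ^ 2) * lap ψ x =
      ∫ y : ℂ, 4 / (1 + ‖y‖ ^ 2) ^ 2 * ψ (c + t • y) := fun t ht => by
    have hd : ∀ z, HasDerivAt (fun z : ℂ => ![(t : ℂ), z - c]) ![0, 1] z := fun z =>
      hasDerivAt_pi.2 (Fin.forall_fin_two.2 ⟨hasDerivAt_const _ _, (hasDerivAt_id z).sub_const c⟩)
    obtain ⟨h1, -, h2⟩ := lapQ 2 univ (fun z => ![t, z - c]) isOpen_univ
      ⟨fun z _ => (hd z).differentiableAt.differentiableWithinAt, fun z _ h => by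
        simpa [ht.ne'] using congrFun h 0⟩
    have h := green univ _ ψ isOpen_univ (h1.of_le (by norm_cast)) hψ
    simp only [h2 _ (mem_univ _), lam, (hd _).deriv, lamv] at h
    simp only [H4.sq, ip, Fin.sum_univ_two, Matrix.cons_val_zero, Matrix.cons_val_one,
      Complex.norm_real, Real.norm_eq_abs, sq_abs, norm_zero, norm_one, zero_mul, zero_add, one_mul,
      Complex.norm_conj] at h
    have h3 := Measure.integral_comp_smul (volume : Measure ℂ)
      (fun y : ℂ => 4 / (1 + ‖y‖ ^ 2) ^ 2 * ψ (c + t • y)) t⁻¹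
    rw [Complex.finrank_real_complex, abs_of_pos (by positivity), smul_eq_mul, inv_pow, inv_inv,
      ← inv_mul_eq_iff_eq_mul₀ (by positivity)] at h3
    rw [h, ← integral_add_left_eq_self _ c, ← h3, ← integral_const_mul]
    refine integral_congr_ae (.of_forall fun x => ?_)
    simp only [smul_inv_smul₀ ht.ne', add_sub_cancel_left, norm_smul, norm_inv, Real.norm_eq_abs,
      abs_of_pos ht]
    field_simp
    ring
  have lim1 : Tendsto (fun t : ℝ => ∫ y : ℂ, 4 / (1 + ‖y‖ ^ 2) ^ 2 * ψ (c + t • y))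
      (𝓝[>] 0) (𝓝 (∫ y : ℂ, 4 / (1 + ‖y‖ ^ 2) ^ 2 * ψ c)) := by
    refine tendsto_integral_filter_of_dominated_convergence (fun y => 4 / (1 + ‖y‖ ^ 2) ^ 2 * C)
      (.of_forall fun k => ?_) (.of_forall fun k => .of_forall fun y => ?_)
      (integrable_bubble.mul_const C) (.of_forall fun y => ?_)
    · refine Continuous.aestronglyMeasurable (Continuous.mul ?_ (by fun_prop))
      exact Continuous.div continuous_const (by fun_prop) fun x => by positivity
    · rw [norm_mul, Real.norm_eq_abs, abs_of_pos (by positivity)]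
      exact mul_le_mul_of_nonneg_left (hC _) (by positivity)
    · exact (Continuous.tendsto' (by fun_prop) _ _ (by simp)).mono_left nhdsWithin_le_nhds
  have lim2 : Tendsto (fun t : ℝ => ∫ x, log (t ^ 2 + ‖x - c‖ ^ 2) * lap ψ x) (𝓝[>] 0)
      (𝓝 (∫ x, 2 * (log ‖x - c‖ * lap ψ x))) := by
    have hne : ∀ᵐ x : ℂ, 0 < ‖x - c‖ := by
      filter_upwards [compl_mem_ae_iff.mpr (measure_singleton c)] with x hx
      exact norm_pos_iff.2 (sub_ne_zero.2 hx)
    have hb : LocallyIntegrable (fun x : ℂ => ‖2 * log ‖x‖‖ + log (1 + ‖x‖ ^ 2)) :=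
      LocallyIntegrable.add
        (fun x => (locInt_log x).imp fun s hs => ⟨hs.1, (hs.2.const_mul 2).norm⟩)
        (Continuous.log (by fun_prop) fun x => by positivity).locallyIntegrable
    refine tendsto_integral_filter_of_dominated_convergence _ ?_ ?_
      ((locInt_sub hb c).integrable_smul_right_of_hasCompactSupport cΔ.norm sΔ.norm) ?_
    · exact .of_forall fun t => (Measurable.mul (by fun_prop) cΔ.measurable).aestronglyMeasurable
    · filter_upwards [Ioo_mem_nhdsGT one_pos] with t ⟨h0, h1⟩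
      filter_upwards [hne] with x hx
      rw [norm_mul, smul_eq_mul]
      refine mul_le_mul_of_nonneg_right ?_ (norm_nonneg _)
      have h2 : log (t ^ 2 + ‖x - c‖ ^ 2) ≤ log (1 + ‖x - c‖ ^ 2) :=
        log_le_log (by positivity) (by nlinarith)
      have h3 : log (‖x - c‖ ^ 2) ≤ log (t ^ 2 + ‖x - c‖ ^ 2) :=
        log_le_log (by positivity) (by nlinarith)
      rw [log_pow] at h3
      have h4 : 0 ≤ log (1 + ‖x - c‖ ^ 2) := log_nonneg (by nlinarith)
      have h5 := neg_abs_le (2 * log ‖x - c‖)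
      have h6 := abs_nonneg (2 * log ‖x - c‖)
      simp only [Real.norm_eq_abs]
      rw [abs_le]
      push_cast at h3
      constructor <;> linarith
    · filter_upwards [hne] with x hx
      have h1 : Tendsto (fun t : ℝ => t ^ 2 + ‖x - c‖ ^ 2) (𝓝[>] 0) (𝓝 (‖x - c‖ ^ 2)) :=
        (Continuous.tendsto' (by fun_prop) _ _ (by simp)).mono_left nhdsWithin_le_nhds
      simpa [mul_assoc] using (h1.log (by positivity)).mul_const (lap ψ x)
  have := tendsto_nhds_unique_of_eventuallyEq lim2 lim1 (eventually_mem_nhdsWithin.mono key)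
  rw [integral_mul_const, integral_bubble, integral_const_mul] at this
  linarith

theorem rep_test {ψ : ℂ → ℝ} (hψ : Test univ ψ) (c : ℂ) {r : ℝ} (hr : 0 < r) :
    IntegrableOn (fun z => log (r / ‖z - c‖) * lap ψ z) (ball c r) ∧ circleAverage ψ c r - ψ c =
      (2 * π)⁻¹ * ∫ z in ball c r, log (r / ‖z - c‖) * lap ψ z := by
  have cΔ := (test_lap hψ).1.continuous
  have sΔ := (test_lap hψ).2.1
  have hne : ∀ᵐ x : ℂ, 0 < ‖x - c‖ := by
    filter_upwards [compl_mem_ae_iff.mpr (measure_singleton c)] with x hx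
    exact norm_pos_iff.2 (sub_ne_zero.2 hx)
  have i1 : Integrable fun z => (log r + log⁺ (r⁻¹ * ‖c - z‖)) * lap ψ z :=
    (Continuous.mul (by fun_prop) cΔ).integrable_of_hasCompactSupport sΔ.mul_left
  have e1 : (ball c r).indicator (fun z => log (r / ‖z - c‖) * lap ψ z) =ᵐ[volume] fun z =>
      (log r + log⁺ (r⁻¹ * ‖c - z‖)) * lap ψ z - log ‖z - c‖ * lap ψ z := by
    filter_upwards [hne] with z hz
    rw [norm_sub_rev c, inv_mul_eq_div]
    by_cases h : z ∈ ball c r
    · rw [indicator_of_mem h, log_div hr.ne' hz.ne', (posLog_eq_zero_iff _).2]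
      · ring
      · rw [abs_of_pos (by positivity), div_le_one hr]
        exact (mem_ball_iff_norm.1 h).le
    · rw [indicator_of_notMem h, posLog_eq_log, log_div hz.ne' hr.ne']
      · ring
      · rw [abs_of_pos (by positivity), one_le_div hr]
        exact not_lt.1 fun a => h (mem_ball_iff_norm.2 a)
  refine ⟨(integrable_indicator_iff measurableSet_ball).1
    ((i1.sub (fund ψ c hψ).1).congr e1.symm), ?_⟩
  have i2 : Integrable (Function.uncurry fun θ z => log ‖z - circleMap c r θ‖ * lap ψ z)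
      ((volume.restrict (uIoc 0 (2 * π))).prod volume) := by
    have m1 := cΔ.measurable
    have m2 := (continuous_circleMap c r).measurable
    refine (integrable_prod_iff (Measurable.aestronglyMeasurable (by fun_prop))).2
      ⟨.of_forall fun θ => (fund ψ (circleMap c r θ) hψ).1, ?_⟩
    have := (sΔ.norm.continuous_convolution_right (ContinuousLinearMap.mul ℝ ℝ)
      (f := fun z => ‖log ‖z‖‖) (fun x => (locInt_log x).imp fun s hs => ⟨hs.1, hs.2.norm⟩)
      cΔ.norm).comp (continuous_circleMap c r)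
    refine (intervalIntegrable_iff.1 (this.intervalIntegrable 0 (2 * π))).congr
      (.of_forall fun θ => ?_)
    simp [convolution_eq_swap, norm_sub_rev (circleMap c r θ)]
  have e2 := intervalIntegral_integral_swap i2
  simp only [(fund ψ _ hψ).2, intervalIntegral.integral_const_mul,
    intervalIntegral.integral_mul_const] at e2
  have e3 : ∀ z, ∫ θ in 0..2 * π, log ‖z - circleMap c r θ‖ =
      2 * π * (log r + log⁺ (r⁻¹ * ‖c - z‖)) := fun z => by
    rw [← circleAverage_log_norm_sub_const_eq_log_radius_add_posLog hr.ne', circleAverage,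
      smul_eq_mul, mul_inv_cancel_left₀ (by positivity)]
    simp only [norm_sub_rev z]
  simp only [e3, mul_assoc, integral_const_mul] at e2
  rw [← integral_indicator measurableSet_ball, integral_congr_ae e1,
    integral_sub i1 (fund ψ c hψ).1, (fund ψ c hψ).2, circleAverage, smul_eq_mul,
    mul_left_cancel₀ pi_pos.ne' (mul_left_cancel₀ two_ne_zero e2)]
  field_simp

theorem rep : RepStmt := fun O u c r hO hu hr hc => by
  obtain ⟨δ, δ0, hδ⟩ := (isCompact_closedBall c r).exists_cthickening_subset_open hO hc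
  rw [cthickening_closedBall δ0.le hr.le] at hδ
  let β : ContDiffBump c := ⟨δ / 2 + r, δ + r, by positivity, by linarith⟩
  have h1 : Test univ fun z => u z * β z :=
    ⟨cd_mul hO hu β.contDiff (β.tsupport_eq.trans_subset hδ), β.hasCompactSupport.mul_left,
      subset_univ _⟩
  have h2 : ∀ z ∈ closedBall c r, (fun z => u z * β z) =ᶠ[𝓝 z] u := fun z hz => by
    filter_upwards [β.eventuallyEq_one_of_mem_ball
      (closedBall_subset_ball (by simp [β, δ0]) hz)] with w hw
    simp [hw]
  have h3 : EqOn (fun z => log (r / ‖z - c‖) * lap (fun z => u z * β z) z)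
      (fun z => log (r / ‖z - c‖) * lap u z) (ball c r) := fun z hz => by
    simp only [lap_congr (h2 z (ball_subset_closedBall hz))]
  obtain ⟨h4, h5⟩ := rep_test h1 c hr
  refine ⟨h4.congr_fun h3 measurableSet_ball, ?_⟩
  rw [← setIntegral_congr_fun measurableSet_ball h3, ← h5]
  congr 1
  · exact circleAverage_congr_sphere fun z hz =>
      (h2 z (sphere_subset_closedBall (by rwa [abs_of_pos hr] at hz))).self_of_nhds.symm
  · exact (h2 c (mem_closedBall_self hr.le)).self_of_nhds.symm

end Pool.Agent.MP_c69980_ag.H4.R1
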