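import Pool.Agent.MP_c69980_ag.H4.SpecA

/-!
Green's identity, product and chain rules for the Laplacian.
-/

set_option autoImplicit false

namespace Pool.Agent.MP_c69980_ag.H4.R1

open Metric Filter Topology MeasureTheory Set Real
open scoped ContDiff ENNReal ComplexConjugate

variable {O : Set ℂ} {u f g ψ : ℂ → ℝ} {z : ℂ}

theorem lap_eq (f : ℂ → ℝ) :
    lap f = fun z => D 1 (D 1 f) z + D Complex.I (D Complex.I f) z := rfl

theorem D_cdOn {n m : WithTop ℕ∞} (hO : IsOpen O) (hu : ContDiffOn ℝ n u O) (hn : m + 1 ≤ n)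
    (v : ℂ) : ContDiffOn ℝ m (D v u) O :=
  (hu.fderiv_of_isOpen hO hn).clm_apply contDiffOn_const

theorem D_cd (hg : ContDiff ℝ ∞ g) (v : ℂ) : ContDiff ℝ ∞ (D v g) :=
  contDiffOn_univ.1 (D_cdOn isOpen_univ hg.contDiffOn le_rfl v)

theorem lap_cd (hg : ContDiff ℝ ∞ g) : ContDiff ℝ ∞ (lap g) :=
  (D_cd (D_cd hg 1) 1).add (D_cd (D_cd hg Complex.I) Complex.I)

theorem test_D (h : Test O ψ) (v : ℂ) : Test O (D v ψ) :=
  ⟨D_cd h.1 v, h.2.1.fderiv_apply ℝ v, (tsupport_fderiv_apply_subset ℝ v).trans h.2.2⟩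

theorem test_lap (h : Test O ψ) : Test O (lap ψ) :=
  have a := test_D (test_D h 1) 1
  have b := test_D (test_D h Complex.I) Complex.I
  ⟨lap_cd h.1, a.2.1.add b.2.1, (tsupport_add _ _).trans (union_subset a.2.2 b.2.2)⟩

theorem cd_mul {n : WithTop ℕ∞} (hO : IsOpen O) (hu : ContDiffOn ℝ n u O) (hψ : ContDiff ℝ n ψ)
    (hs : tsupport ψ ⊆ O) : ContDiff ℝ n fun z => u z * ψ z :=
  contDiff_iff_contDiffAt.2 fun z => by
    by_cases hz : z ∈ O
    · exact (hu.contDiffAt (hO.mem_nhds hz)).mul hψ.contDiffAt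
    · refine (contDiffAt_const (c := 0)).congr_of_eventuallyEq ?_
      filter_upwards [notMem_tsupport_iff_eventuallyEq.1 fun a => hz (hs a)] with y hy
      simp [hy]

theorem cont_mul (hO : IsOpen O) (hu : ContinuousOn u O) (hψ : Test O ψ) :
    Continuous fun z => u z * ψ z :=
  contDiff_zero.1 (cd_mul hO (contDiffOn_zero.2 hu) (contDiff_zero.2 hψ.1.continuous) hψ.2.2)

theorem int_mul (hO : IsOpen O) (hu : ContinuousOn u O) (hψ : Test O ψ) :
    Integrable fun z => u z * ψ z :=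
  (cont_mul hO hu hψ).integrable_of_hasCompactSupport hψ.2.1.mul_left

theorem ibp (hO : IsOpen O) (hu : ContDiffOn ℝ 1 u O) (hψ : Test O ψ) (v : ℂ) :
    ∫ z, u z * D v ψ z = -∫ z, D v u z * ψ z :=
  integral_mul_fderiv_eq_neg_fderiv_mul_of_integrable
    (int_mul hO (D_cdOn (m := 0) hO hu (by simp) v).continuousOn hψ)
    (int_mul hO hu.continuousOn (test_D hψ v)) (int_mul hO hu.continuousOn hψ)
    (fun _ hx => (hu.contDiffAt (hO.mem_nhds (hψ.2.2 hx))).differentiableAt (by simp))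
    fun _ _ => hψ.1.differentiable (by simp) _

theorem green : GreenStmt := fun O u ψ hO hu hψ => by
  have key : ∀ v, ∫ z, u z * D v (D v ψ) z = ∫ z, D v (D v u) z * ψ z := fun v => by
    rw [ibp hO (hu.of_le (by norm_num)) (test_D hψ v),
      ibp hO (D_cdOn hO hu (by norm_num) v) hψ, neg_neg]
  have i1 := fun v => int_mul hO hu.continuousOn (test_D (test_D hψ v) v)
  have i2 := fun v => int_mul hO (D_cdOn (m := 0) hO (D_cdOn (m := 1) hO hu (by norm_num) v)
    (by norm_num) v).continuousOn hψ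
  simp only [lap_eq, mul_add, add_mul]
  rw [integral_add (i1 1) (i1 Complex.I), integral_add (i2 1) (i2 Complex.I), key, key]

theorem D_congr (h : f =ᶠ[𝓝 z] g) (v : ℂ) : D v f =ᶠ[𝓝 z] D v g :=
  (h.fderiv (𝕜 := ℝ)).mono fun w hw => by simp only [D, hw]

theorem lap_congr (h : f =ᶠ[𝓝 z] g) : lap f z = lap g z := by
  rw [lap, lap, (D_congr (D_congr h _) _).self_of_nhds, (D_congr (D_congr h _) _).self_of_nhds]

theorem grad_congr (h : f =ᶠ[𝓝 z] g) : grad f z = grad g z := by
  rw [grad, grad, (D_congr h _).self_of_nhds, (D_congr h _).self_of_nhds]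

theorem D_diff (hf : ContDiffAt ℝ 2 f z) (v : ℂ) : DifferentiableAt ℝ (D v f) z :=
  ((hf.fderiv_right (m := 1) (by norm_num)).clm_apply contDiffAt_const).differentiableAt
    (by simp)

theorem ev_diff {E : Type*} [NormedAddCommGroup E] [NormedSpace ℝ E] {f : E → ℝ} {z : E}
    (hf : ContDiffAt ℝ 2 f z) : ∀ᶠ w in 𝓝 z, DifferentiableAt ℝ f w :=
  (hf.eventually (by simp)).mono fun _ a => a.differentiableAt (by simp)

theorem D_add (hf : DifferentiableAt ℝ f z) (hg : DifferentiableAt ℝ g z) (v : ℂ) :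
    D v (fun w => f w + g w) z = D v f z + D v g z := by
  rw [D, fderiv_fun_add hf hg]; rfl

theorem D_mul (hf : DifferentiableAt ℝ f z) (hg : DifferentiableAt ℝ g z) (v : ℂ) :
    D v (fun w => f w * g w) z = f z * D v g z + g z * D v f z := by
  rw [D, fderiv_fun_mul hf hg]; rfl

theorem D_comp {Θ : ℝ → ℝ} (hΘ : DifferentiableAt ℝ Θ (f z)) (hf : DifferentiableAt ℝ f z)
    (v : ℂ) : D v (fun w => Θ (f w)) z = deriv Θ (f z) * D v f z := by
  have := hΘ.hasDerivAt.comp_hasFDerivAt z hf.hasFDerivAt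
  rw [D, show (fun w => Θ (f w)) = Θ ∘ f from rfl, this.fderiv]; rfl

theorem fderiv_eq (f : ℂ → ℝ) (z v : ℂ) :
    fderiv ℝ f z v = v.re * D 1 f z + v.im * D Complex.I f z := by
  have : v = v.re • (1 : ℂ) + v.im • Complex.I := by simp
  conv_lhs => rw [this, map_add, map_smul, map_smul]
  rfl

theorem grad_sq (f : ℂ → ℝ) (z : ℂ) : ‖grad f z‖ ^ 2 = D 1 f z ^ 2 + D Complex.I f z ^ 2 := by
  rw [Complex.sq_norm, Complex.normSq_apply, grad]; ring

theorem lapRule : LapRuleStmt := fun f g Θ z hf hg hΘ => by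
  have df := hf.differentiableAt (by simp)
  have dg := hg.differentiableAt (by simp)
  have dΘ := hΘ.differentiableAt (by simp)
  have d2 : DifferentiableAt ℝ (deriv Θ) (f z) :=
    ((hΘ.fderiv_right (m := 1) (by norm_num)).clm_apply
      (contDiffAt_const (c := (1 : ℝ)))).differentiableAt (by simp)
  have a1 : ∀ v, D v (D v fun w => f w + g w) z = D v (D v f) z + D v (D v g) z := fun v => by
    rw [← D_add (D_diff hf v) (D_diff hg v)]
    refine (D_congr ?_ v).self_of_nhds
    filter_upwards [ev_diff hf, ev_diff hg] with w a b using D_add a b v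
  have a2 : ∀ v, D v (D v fun w => f w * g w) z =
      f z * D v (D v g) z + 2 * (D v f z * D v g z) + g z * D v (D v f) z := fun v => by
    have : D v (fun w => f w * g w) =ᶠ[𝓝 z] fun w => f w * D v g w + g w * D v f w := by
      filter_upwards [ev_diff hf, ev_diff hg] with w a b using D_mul a b v
    rw [(D_congr this v).self_of_nhds, D_add (df.fun_mul (D_diff hg v)) (dg.fun_mul (D_diff hf v)),
      D_mul df (D_diff hg v), D_mul dg (D_diff hf v)]
    ring
  have a3 : ∀ v, D v (D v fun w => Θ (f w)) z =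
      deriv Θ (f z) * D v (D v f) z + deriv (deriv Θ) (f z) * D v f z ^ 2 := fun v => by
    have : D v (fun w => Θ (f w)) =ᶠ[𝓝 z] fun w => deriv Θ (f w) * D v f w := by
      filter_upwards [ev_diff hf, df.continuousAt.eventually (ev_diff hΘ)] with w a b
        using D_comp b a v
    rw [(D_congr this v).self_of_nhds, D_mul (d2.fun_comp' z df) (D_diff hf v),
      D_comp d2 df]
    ring
  refine ⟨?_, ?_, ?_, ?_, fun v => ?_⟩
  · simp only [lap, a1]; ring
  · simp only [lap, a2, fderiv_eq g z, grad]; ring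
  · simp only [lap, a3, grad_sq]; ring
  · apply Complex.ext <;> simp [grad, D_comp dΘ df]
  · have := Complex.abs_re_le_norm (conj (grad f z) * v)
    rw [norm_mul, Complex.norm_conj] at this
    convert this using 2
    simp [fderiv_eq f z v, grad, mul_comm]

end Pool.Agent.MP_c69980_ag.H4.R1
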